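import Pool.Agent.TH612.GS.Stm

set_option autoImplicit false

/-! Part SS of project GS: from the sharp to the smooth diagonal sum. -/

namespace Pool.Agent.TH367.GS

open Complex Filter Topology MeasureTheory Set
open Pool.Agent.TH612.CF
open Pool.Agent.TH612.GS
open Pool.Agent.W182.KO hiding ee SS_summable

noncomputable section

variable {k : ℕ}

/-- product of the left entries -/
def pl (ν : Fin k ⊕ Fin k → ℕ) : ℕ := ∏ j, ν (Sum.inl j)

/-- product of the right entries -/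
def pr (ν : Fin k ⊕ Fin k → ℕ) : ℕ := ∏ j, ν (Sum.inr j)

/-- the diagonal tuples -/
def dgn (k N : ℕ) : Finset (Fin k ⊕ Fin k → ℕ) := (tup k N).filter fun ν => pl ν = pr ν

lemma mem_tup {N : ℕ} {ν : Fin k ⊕ Fin k → ℕ} : ν ∈ tup k N ↔ ∀ i, 1 ≤ ν i ∧ ν i ≤ N := by
  simp [tup]

lemma pl_pos {N : ℕ} {ν : Fin k ⊕ Fin k → ℕ} (h : ν ∈ tup k N) : 1 ≤ pl ν := by
  have h1 : 0 < ∏ j, ν (Sum.inl j) := Finset.prod_pos fun j _ => (mem_tup.1 h (Sum.inl j)).1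
  exact h1

lemma mem_dgn {N : ℕ} {ν : Fin k ⊕ Fin k → ℕ} : ν ∈ dgn k N ↔ ν ∈ tup k N ∧ pl ν = pr ν := by
  simp [dgn]

/-- sums over the diagonal tuples with given product -/
lemma fiber_sum (N n : ℕ) (hn : 1 ≤ n) (hnN : n ≤ N) (F : (Fin k → ℕ) → (Fin k → ℕ) → ℂ) :
    ∑ ν ∈ (dgn k N).filter (fun ν => pl ν = n),
      F (fun j => ν (Sum.inl j)) (fun j => ν (Sum.inr j)) =
    ∑ g ∈ Nat.finMulAntidiag k n, ∑ f ∈ Nat.finMulAntidiag k n, F g f := by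
  rw [← Finset.sum_product']
  refine Finset.sum_bij' (fun ν _ => (fun j => ν (Sum.inl j), fun j => ν (Sum.inr j)))
    (fun p _ => Sum.elim p.1 p.2) ?_ ?_ ?_ ?_ ?_
  · intro ν hν
    rw [Finset.mem_filter, mem_dgn] at hν
    rw [Finset.mem_product, Nat.mem_finMulAntidiag, Nat.mem_finMulAntidiag]
    refine ⟨⟨hν.2, by omega⟩, ⟨?_, by omega⟩⟩
    have h1 := hν.1.2
    rw [hν.2] at h1
    exact h1.symm
  · rintro ⟨g, f⟩ hp
    rw [Finset.mem_product] at hp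
    obtain ⟨hg, hf⟩ := hp
    have hgp := Nat.mem_finMulAntidiag.1 hg
    have hfp := Nat.mem_finMulAntidiag.1 hf
    rw [Finset.mem_filter, mem_dgn, mem_tup]
    have bd : ∀ (u : Fin k → ℕ), ∏ i, u i = n → ∀ j, 1 ≤ u j ∧ u j ≤ N := by
      intro u hu j
      have hd : u j ∣ n := by rw [← hu]; exact Finset.dvd_prod_of_mem u (Finset.mem_univ j)
      exact ⟨Nat.pos_of_dvd_of_pos hd hn, (Nat.le_of_dvd hn hd).trans hnN⟩
    refine ⟨⟨?_, ?_⟩, ?_⟩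
    · rintro (j | j)
      · exact bd g hgp.1 j
      · exact bd f hfp.1 j
    · show ∏ j, g j = ∏ j, f j
      rw [hgp.1, hfp.1]
    · exact hgp.1
  · intro ν _
    funext i
    rcases i with j | j <;> rfl
  · rintro ⟨g, f⟩ _
    rfl
  · intro ν _
    rfl

/-- number of the diagonal tuples with given product -/
lemma fiber_card (N n : ℕ) (hn : 1 ≤ n) :
    ((dgn k N).filter (fun ν => pl ν = n)).card ≤ (Nat.finMulAntidiag k n).card ^ 2 := by
  rw [pow_two, ← Finset.card_product]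
  refine Finset.card_le_card_of_injOn
    (fun ν => (fun j => ν (Sum.inl j), fun j => ν (Sum.inr j))) ?_ ?_
  · intro ν hν
    rw [Finset.mem_coe, Finset.mem_filter, mem_dgn] at hν
    rw [Finset.mem_coe, Finset.mem_product, Nat.mem_finMulAntidiag, Nat.mem_finMulAntidiag]
    refine ⟨⟨hν.2, by omega⟩, ⟨?_, by omega⟩⟩
    have h1 := hν.1.2
    rw [hν.2] at h1
    exact h1.symm
  · intro ν _ μ _ h
    simp only [Prod.mk.injEq] at h
    funext i
    rcases i with j | j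
    · exact congrFun h.1 j
    · exact congrFun h.2 j

lemma fma_card (n : ℕ) (hn : 1 ≤ n) : (Nat.finMulAntidiag k n).card ≤ n.divisors.card ^ k := by
  rw [Nat.finMulAntidiag_eq_piFinset_divisors_filter dvd_rfl (by omega)]
  refine (Finset.card_filter_le _ _).trans ?_
  rw [Fintype.card_piFinset]
  simp

/-- the sum of `n(ν)^(-3/2)` over the diagonal tuples is bounded -/
lemma diag_bound (k : ℕ) : ∃ K : ℝ, 0 ≤ K ∧ ∀ N : ℕ,
    ∑ ν ∈ dgn k N, ((pl ν : ℕ) : ℝ) ^ (-(3 / 2) : ℝ) ≤ K := by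
  obtain ⟨C, hC0, hC⟩ := Pool.Agent.H510R2.divisor_bound (1 / (8 * (k + 1))) (by positivity)
  have hs : Summable (fun n : ℕ => (n : ℝ) ^ (-(5 / 4) : ℝ)) :=
    Real.summable_nat_rpow.2 (by norm_num)
  refine ⟨C ^ (2 * k) * ∑' n : ℕ, (n : ℝ) ^ (-(5 / 4) : ℝ),
    mul_nonneg (by positivity) (tsum_nonneg fun n => by positivity), fun N => ?_⟩
  classical
  rw [← Finset.sum_fiberwise_of_maps_to (s := dgn k N) (t := (dgn k N).image pl) (g := pl)
    (fun ν hν => Finset.mem_image_of_mem _ hν)]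
  rw [← tsum_mul_left]
  refine le_trans ?_ ((hs.mul_left _).sum_le_tsum ((dgn k N).image pl)
    (fun n _ => by positivity))
  refine Finset.sum_le_sum fun n hn => ?_
  have hn1 : 1 ≤ n := by
    obtain ⟨ν, hν, rfl⟩ := Finset.mem_image.1 hn
    exact pl_pos (mem_dgn.1 hν).1
  have hn0 : (0:ℝ) < n := by exact_mod_cast hn1
  have h1 : ∑ ν ∈ (dgn k N).filter (fun ν => pl ν = n), ((pl ν : ℕ) : ℝ) ^ (-(3 / 2) : ℝ) =
      ((dgn k N).filter (fun ν => pl ν = n)).card * (n : ℝ) ^ (-(3 / 2) : ℝ) := by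
    rw [Finset.sum_congr rfl (g := fun _ => (n : ℝ) ^ (-(3 / 2) : ℝ))]
    · rw [Finset.sum_const, nsmul_eq_mul]
    · intro ν hν
      rw [(Finset.mem_filter.1 hν).2]
  rw [h1]
  have h2 : (((dgn k N).filter (fun ν => pl ν = n)).card : ℝ) ≤ C ^ (2 * k) * (n : ℝ) ^ (1 / 4 : ℝ) := by
    have h3 : (((dgn k N).filter (fun ν => pl ν = n)).card : ℝ) ≤ (n.divisors.card : ℝ) ^ (2 * k) := by
      have h4 := (fiber_card (k := k) N n hn1).trans (Nat.pow_le_pow_left (fma_card n hn1) 2)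
      rw [← pow_mul, mul_comm k 2] at h4
      exact_mod_cast h4
    refine h3.trans ?_
    refine (pow_le_pow_left₀ (by positivity) (hC n hn1) _).trans ?_
    rw [mul_pow, ← Real.rpow_natCast ((n:ℝ) ^ _), ← Real.rpow_mul hn0.le]
    refine mul_le_mul_of_nonneg_left ?_ (by positivity)
    refine Real.rpow_le_rpow_of_exponent_le (by exact_mod_cast hn1) ?_
    push_cast
    rw [div_mul_eq_mul_div, div_le_div_iff₀ (by positivity) (by norm_num)]
    nlinarith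
  calc _ ≤ (C ^ (2 * k) * (n : ℝ) ^ (1 / 4 : ℝ)) * (n : ℝ) ^ (-(3 / 2) : ℝ) := by gcongr
    _ = C ^ (2 * k) * (n : ℝ) ^ (-(5 / 4) : ℝ) := by
      rw [mul_assoc, ← Real.rpow_add hn0]
      norm_num

/-- the cut-off at `n` -/
def qq (ψ : ℝ → ℝ) (N n : ℕ) : ℝ := ψ (Real.log n / (Real.log N / 2))

lemma SN_eq (N : ℕ) (γ : Fin k ⊕ Fin k → ℝ) :
    SN N γ = ∑ ν ∈ tup k N, if pl ν = pr ν then ((pl ν : ℕ) : ℂ)⁻¹ * ch ν γ else 0 := by
  unfold SN
  refine Finset.sum_congr rfl fun ν hν => ?_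
  by_cases h : pl ν = pr ν
  · have h' : ∏ j, ν (Sum.inl j) = ∏ j, ν (Sum.inr j) := h
    rw [if_pos h, if_pos h']
    congr 1
    have hw : wt ν = ((pl ν : ℕ) : ℝ)⁻¹ := by
      unfold wt
      have h0 : (0:ℝ) < (pl ν : ℕ) := by exact_mod_cast pl_pos hν
      have h1 : ∏ i, (ν i : ℝ) = ((pl ν : ℕ) : ℝ) ^ (2 : ℝ) := by
        rw [Fintype.prod_sum_type]
        have e1 : ∏ j, (ν (Sum.inl j) : ℝ) = ((pl ν : ℕ) : ℝ) := by
          unfold pl; push_cast; rfl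
        have e2 : ∏ j, (ν (Sum.inr j) : ℝ) = ((pl ν : ℕ) : ℝ) := by
          rw [h]; unfold pr; push_cast; rfl
        rw [e1, e2]
        rw [show (2:ℝ) = ((2:ℕ) : ℝ) by norm_num, Real.rpow_natCast, pow_two]
      rw [h1, ← Real.rpow_mul h0.le, ← Real.rpow_neg_one]
      norm_num
    rw [hw]
    push_cast
    rfl
  · have h' : ¬ ∏ j, ν (Sum.inl j) = ∏ j, ν (Sum.inr j) := h
    rw [if_neg h, if_neg h']

lemma SP_eq {ψ : ℝ → ℝ} (hψ : Cut ψ) {N : ℕ} (hN : 2 ≤ N) (γ : Fin k ⊕ Fin k → ℝ) :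
    SP ψ N γ = ∑ ν ∈ tup k N,
      if pl ν = pr ν then ((pl ν : ℕ) : ℂ)⁻¹ * (qq ψ N (pl ν) : ℂ) * ch ν γ else 0 := by
  have hlog : 0 < Real.log N := Real.log_pos (by exact_mod_cast (by omega : 1 < N))
  have h1 : SP ψ N γ = ∑ n ∈ Finset.Icc 1 N, ∑ ν ∈ dgn k N,
      if pl ν = n then ((n : ℕ) : ℂ)⁻¹ * (qq ψ N n : ℂ) * ch ν γ else 0 := by
    unfold SP
    refine Finset.sum_congr rfl fun n hn => ?_
    rw [Finset.mem_Icc] at hn
    rw [← Finset.sum_filter]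
    have h2 := fiber_sum (k := k) N n hn.1 hn.2 (fun g f => ((n : ℕ) : ℂ)⁻¹ * (qq ψ N n : ℂ) *
      ((∏ j, (g j : ℂ) ^ (-(I * γ (Sum.inl j)))) * ∏ j, (f j : ℂ) ^ (I * γ (Sum.inr j))))
    have h3 : ∑ ν ∈ (dgn k N).filter (fun ν => pl ν = n),
        ((n : ℕ) : ℂ)⁻¹ * (qq ψ N n : ℂ) * ch ν γ =
      ∑ g ∈ Nat.finMulAntidiag k n, ∑ f ∈ Nat.finMulAntidiag k n,
        ((n : ℕ) : ℂ)⁻¹ * (qq ψ N n : ℂ) *
      ((∏ j, (g j : ℂ) ^ (-(I * γ (Sum.inl j)))) * ∏ j, (f j : ℂ) ^ (I * γ (Sum.inr j))) := h2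
    rw [h3]
    unfold dr dg tau
    simp_rw [← Finset.mul_sum]
    rw [← Finset.sum_mul]
    unfold qq
    ring
  rw [h1, Finset.sum_comm]
  unfold dgn
  rw [Finset.sum_filter]
  refine Finset.sum_congr rfl fun ν hν => ?_
  by_cases h : pl ν = pr ν
  · rw [if_pos h, if_pos h, Finset.sum_ite_eq]
    split_ifs with h2
    · rfl
    · have h3 : N < pl ν := by
        rw [Finset.mem_Icc] at h2
        have := pl_pos hν
        omega
      have h4 : qq ψ N (pl ν) = 0 := by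
        unfold qq
        apply hψ.2.2.2
        rw [le_div_iff₀ (by positivity)]
        have h5 : Real.log N ≤ Real.log (pl ν : ℕ) :=
          Real.log_le_log (by positivity) (by exact_mod_cast h3.le)
        linarith
      rw [h4]
      simp
  · rw [if_neg h, if_neg h]

/-- the coefficients of the difference -/
def cc (ψ : ℝ → ℝ) (N : ℕ) (ν : Fin k ⊕ Fin k → ℕ) : ℂ :=
  if pl ν = pr ν then ((pl ν : ℕ) : ℂ)⁻¹ * (1 - (qq ψ N (pl ν) : ℂ)) else 0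

lemma diff_eq {ψ : ℝ → ℝ} (hψ : Cut ψ) {N : ℕ} (hN : 2 ≤ N) (γ : Fin k ⊕ Fin k → ℝ) :
    SN N γ - SP ψ N γ = ∑ ν ∈ tup k N, cc ψ N ν * ch ν γ := by
  rw [SN_eq, SP_eq hψ hN, ← Finset.sum_sub_distrib]
  refine Finset.sum_congr rfl fun ν _ => ?_
  unfold cc
  split_ifs
  · ring
  · ring

lemma norm_one_sub {ψ : ℝ → ℝ} (hψ : Cut ψ) (N n : ℕ) : ‖(1 - (qq ψ N n : ℂ))‖ ≤ 1 := by
  have h : (1 - (qq ψ N n : ℂ)) = ((1 - qq ψ N n : ℝ) : ℂ) := by push_cast; rfl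
  rw [h, Complex.norm_real, Real.norm_eq_abs, abs_le]
  have h1 := hψ.2.1 (Real.log n / (Real.log N / 2))
  unfold qq
  constructor <;> linarith [h1.1, h1.2]

lemma cc_le_one {ψ : ℝ → ℝ} (hψ : Cut ψ) {N : ℕ} {ν : Fin k ⊕ Fin k → ℕ} (hν : ν ∈ tup k N) :
    ‖cc ψ N ν‖ ≤ 1 := by
  unfold cc
  split_ifs with h
  · rw [norm_mul, norm_inv, Complex.norm_natCast]
    have h1 : (1:ℝ) ≤ (pl ν : ℕ) := by exact_mod_cast pl_pos hν
    have h2 := norm_one_sub hψ N (pl ν)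
    have h3 : ((pl ν : ℕ) : ℝ)⁻¹ ≤ 1 := inv_le_one_of_one_le₀ h1
    calc _ ≤ (1:ℝ) * 1 := by gcongr
      _ = 1 := one_mul 1
  · simp

lemma cc_sq {ψ : ℝ → ℝ} (hψ : Cut ψ) {N : ℕ} (hN : 2 ≤ N) {ν : Fin k ⊕ Fin k → ℕ}
    (hν : ν ∈ tup k N) (h : pl ν = pr ν) :
    ‖cc ψ N ν‖ ^ 2 ≤ (N : ℝ) ^ (-(1 / 8) : ℝ) * ((pl ν : ℕ) : ℝ) ^ (-(3 / 2) : ℝ) := by
  have hlog : 0 < Real.log N := Real.log_pos (by exact_mod_cast (by omega : 1 < N))
  have hN0 : (0:ℝ) < N := by positivity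
  have hp0 : (0:ℝ) < (pl ν : ℕ) := by exact_mod_cast pl_pos hν
  unfold cc
  rw [if_pos h]
  by_cases h1 : Real.log (pl ν : ℕ) ≤ Real.log N / 4
  · have h2 : qq ψ N (pl ν) = 1 := by
      unfold qq
      apply hψ.2.2.1
      rw [div_le_iff₀ (by positivity)]
      linarith
    rw [h2, Complex.ofReal_one, sub_self, mul_zero, norm_zero, zero_pow two_ne_zero]
    positivity
  · push Not at h1
    rw [norm_mul, norm_inv, Complex.norm_natCast]
    have h2 := norm_one_sub hψ N (pl ν)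
    have h3 : (((pl ν : ℕ) : ℝ)⁻¹ * ‖(1 - (qq ψ N (pl ν) : ℂ))‖) ^ 2 ≤
        (((pl ν : ℕ) : ℝ)⁻¹) ^ 2 := by
      apply pow_le_pow_left₀ (by positivity)
      calc _ ≤ ((pl ν : ℕ) : ℝ)⁻¹ * 1 := by gcongr
        _ = _ := mul_one _
    refine h3.trans ?_
    have h4 : (((pl ν : ℕ) : ℝ)⁻¹) ^ 2 = ((pl ν : ℕ) : ℝ) ^ (-(1 / 2) : ℝ) *
        ((pl ν : ℕ) : ℝ) ^ (-(3 / 2) : ℝ) := by
      rw [← Real.rpow_add hp0, ← Real.rpow_neg_one, ← Real.rpow_natCast, ← Real.rpow_mul hp0.le]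
      norm_num
    rw [h4]
    refine mul_le_mul_of_nonneg_right ?_ (by positivity)
    rw [Real.rpow_def_of_pos hp0, Real.rpow_def_of_pos hN0, Real.exp_le_exp]
    linarith

lemma tup_card (N : ℕ) : (tup k N).card = N ^ (2 * k) := by
  unfold tup
  rw [Fintype.card_piFinset]
  simp [two_mul]

theorem t_SS (hFL : S_FL2) : S_SS := by
  intro k ψ hψ
  obtain ⟨K, hK0, hK⟩ := diag_bound k
  refine ⟨K + 1, by positivity, fun T N hN hT => ?_⟩
  have hN0 : (0:ℝ) < N := by positivity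
  have hN1 : (1:ℝ) ≤ N := by exact_mod_cast (by omega : 1 ≤ N)
  have hT0 : 0 < T := lt_of_lt_of_le (by positivity) hT
  have h1 := hFL k N T (cc ψ N) (by omega) hT0
  simp_rw [diff_eq hψ hN]
  refine h1.trans (ENNReal.ofReal_le_ofReal ?_)
  have hS2 : ∑ ν ∈ tup k N, ‖cc ψ N ν‖ ^ 2 ≤ (N : ℝ) ^ (-(1 / 8) : ℝ) * K := by
    refine le_trans ?_ (mul_le_mul_of_nonneg_left (hK N) (by positivity))
    rw [Finset.mul_sum]
    unfold dgn
    rw [Finset.sum_filter]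
    refine Finset.sum_le_sum fun ν hν => ?_
    split_ifs with h
    · exact cc_sq hψ hN hν h
    · unfold cc
      rw [if_neg h]
      simp
  have hS1 : 2 * (N : ℝ) * T ^ (2 * k - 1) * (∑ ν ∈ tup k N, ‖cc ψ N ν‖) ^ 2 ≤
      T ^ (2 * k) * (N : ℝ) ^ (-(1 / 8) : ℝ) := by
    rcases Nat.eq_zero_or_pos k with hk | hk
    · subst hk
      have h0 : ∑ ν ∈ tup 0 N, ‖cc ψ N ν‖ = 0 := by
        refine Finset.sum_eq_zero fun ν _ => ?_
        have hp : pl ν = 1 := by unfold pl; simp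
        have hr : pr ν = 1 := by unfold pr; simp
        have hq : qq ψ N 1 = 1 := by
          unfold qq
          apply hψ.2.2.1
          simp
        unfold cc
        rw [hp, hr, if_pos rfl, hq]
        simp
      rw [h0]
      simp only [ne_eq, OfNat.ofNat_ne_zero, not_false_eq_true, zero_pow, mul_zero]
      positivity
    · have h2 : ∑ ν ∈ tup k N, ‖cc ψ N ν‖ ≤ (N : ℝ) ^ (2 * k) := by
        refine (Finset.sum_le_sum fun ν hν => cc_le_one hψ hν).trans ?_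
        rw [Finset.sum_const, tup_card]
        simp
      have h3 : (∑ ν ∈ tup k N, ‖cc ψ N ν‖) ^ 2 ≤ (N : ℝ) ^ (4 * k) := by
        refine (pow_le_pow_left₀ (Finset.sum_nonneg fun _ _ => norm_nonneg _) h2 2).trans ?_
        rw [← pow_mul]
        apply le_of_eq
        congr 1
        ring
      have h4 : (N : ℝ) ^ (-(1 : ℝ)) ≤ (N : ℝ) ^ (-(1 / 8) : ℝ) :=
        Real.rpow_le_rpow_of_exponent_le hN1 (by norm_num)
      have h5 : T ^ (2 * k) = T ^ (2 * k - 1) * T := by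
        rw [← pow_succ]
        congr 1
        omega
      calc 2 * (N : ℝ) * T ^ (2 * k - 1) * (∑ ν ∈ tup k N, ‖cc ψ N ν‖) ^ 2
          ≤ 2 * (N : ℝ) * T ^ (2 * k - 1) * (N : ℝ) ^ (4 * k) := by gcongr
        _ = T ^ (2 * k - 1) * (2 * (N : ℝ) ^ (4 * k + 2)) * (N : ℝ) ^ (-(1 : ℝ)) := by
            rw [Real.rpow_neg_one, pow_add, pow_two]
            field_simp
        _ ≤ T ^ (2 * k - 1) * T * (N : ℝ) ^ (-(1 / 8) : ℝ) := by gcongr
        _ = _ := by rw [← h5]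
  calc T ^ (2 * k) * ∑ ν ∈ tup k N, ‖cc ψ N ν‖ ^ 2 +
      2 * N * T ^ (2 * k - 1) * (∑ ν ∈ tup k N, ‖cc ψ N ν‖) ^ 2
      ≤ T ^ (2 * k) * ((N : ℝ) ^ (-(1 / 8) : ℝ) * K) + T ^ (2 * k) * (N : ℝ) ^ (-(1 / 8) : ℝ) := by
        gcongr
    _ = _ := by ring

end

end Pool.Agent.TH367.GS
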